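import Pool.Agent.W203.SP.Stm
import Pool.Agent.W777.ST.B4
set_option autoImplicit false

/-! Project SP, part PAR: the paraboloid with `k` independent parameters at one time. -/

namespace Pool.Agent.W479.SP

open MeasureTheory Set Complex Filter
open scoped ENNReal NNReal FourierTransform RealInnerProductSpace ContDiff ComplexConjugate
open Pool.Agent.H153R4
open Pool.Agent.W203.SP (S_PAR)

variable {k : ℕ}

lemma meas_dd (r : ℝ) : Measurable fun q : E k × (Fin k → ℝ) =>
    dd (fun j => r * q.2 j) q.1 := by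
  unfold dd
  apply (PiLp.volume_preserving_toLp (Fin k)).measurable.comp
  rw [measurable_pi_iff]
  intro j
  fun_prop

lemma meas_FK' {g : E k → ℂ} (hg : Measurable g) (r : ℝ) :
    Measurable fun q : E k × (Fin k → ℝ) => 𝓕 (kk g q.1) (dd (fun j => r * q.2 j) q.1) := by
  simp only [Real.fourier_eq]
  have h1 : Measurable fun q : (E k × (Fin k → ℝ)) × E k =>
      Real.fourierChar (-⟪q.2, dd (fun j => r * q.1.2 j) q.1.1⟫) • kk g q.1.1 q.2 := by
    have hdd : Measurable fun q : (E k × (Fin k → ℝ)) × E k =>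
        dd (fun j => r * q.1.2 j) q.1.1 := (meas_dd r).comp measurable_fst
    have hin : Measurable fun q : (E k × (Fin k → ℝ)) × E k =>
        -⟪q.2, dd (fun j => r * q.1.2 j) q.1.1⟫ := (measurable_snd.inner hdd).neg
    have hk : Measurable fun q : (E k × (Fin k → ℝ)) × E k => kk g q.1.1 q.2 := by
      unfold kk
      exact (hg.comp (by fun_prop)).mul
        (continuous_conj.measurable.comp (hg.comp measurable_snd))
    have hc : Measurable fun q : (E k × (Fin k → ℝ)) × E k =>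
        ((Real.fourierChar (-⟪q.2, dd (fun j => r * q.1.2 j) q.1.1⟫) : Circle) : ℂ) :=
      (continuous_subtype_val.comp Real.continuous_fourierChar).measurable.comp hin
    exact hc.mul hk
  exact (h1.stronglyMeasurable.integral_prod_right' (ν := volume)).measurable

lemma lint_prod (μ : Measure ℝ) [SigmaFinite μ] (F : Fin k → ℝ → ℝ) (hF0 : ∀ j l, 0 ≤ F j l)
    (hF : ∀ j, Integrable (F j) μ) :
    ∫⁻ u, ∏ j, ENNReal.ofReal (F j (u j)) ∂(Measure.pi fun _ : Fin k => μ) =
      ∏ j, ∫⁻ l, ENNReal.ofReal (F j l) ∂μ := by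
  have h1 : ∀ u : Fin k → ℝ, ∏ j, ENNReal.ofReal (F j (u j)) =
      ENNReal.ofReal (∏ j, F j (u j)) := fun u =>
    (ENNReal.ofReal_prod_of_nonneg fun j _ => hF0 j _).symm
  simp only [h1]
  have hi : Integrable (fun u : Fin k → ℝ => ∏ j, F j (u j)) (Measure.pi fun _ : Fin k => μ) :=
    Integrable.fin_nat_prod hF
  rw [← ofReal_integral_eq_lintegral_ofReal hi
    (ae_of_all _ fun u => Finset.prod_nonneg fun j _ => hF0 j _),
    integral_fin_nat_prod_eq_prod, ENNReal.ofReal_prod_of_nonneg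
      (fun j _ => integral_nonneg fun l => hF0 j l)]
  refine Finset.prod_congr rfl fun j _ => ?_
  rw [ofReal_integral_eq_lintegral_ofReal (hF j) (ae_of_all _ fun l => hF0 j l)]

lemma gm_dd' (r : ℝ) (u : Fin k → ℝ) (h z : E k) :
    ENNReal.ofReal (gm (z - dd (fun j => r * u j) h)) =
      ∏ j : Fin k, ENNReal.ofReal
          (Real.exp (-Real.pi * (z j - (2 * r * h j) * u j) ^ 2)) := by
  unfold gm
  rw [EuclideanSpace.norm_sq_eq, Finset.mul_sum, Real.exp_sum,
    ENNReal.ofReal_prod_of_nonneg (fun _ _ => (Real.exp_pos _).le)]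
  apply Finset.prod_congr rfl
  intro j _
  congr 3
  rw [Real.norm_eq_abs, sq_abs]
  simp only [PiLp.sub_apply, dd]
  ring

lemma box_bound (β L r : ℝ) (hβ0 : 0 ≤ β) (hβ1 : β ≤ 1) (hL : 1 ≤ L) (hr : r ≠ 0) (h z : E k)
    (hh : ∀ j, h j ≠ 0) :
    ∫⁻ u in Icc (fun _ : Fin k => -L) (fun _ => L),
      ENNReal.ofReal (gm (z - dd (fun j => r * u j) h)) ≤
    ENNReal.ofReal (((2 * L) ^ β) ^ k) * ENNReal.ofReal (|r| ^ (-(k * (1 - β)))) *
      ∏ j, ENNReal.ofReal (|h j| ^ (β - 1)) := by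
  simp only [gm_dd']
  have hr0 : 0 < |r| := abs_pos.2 hr
  rw [volume_pi, ← Set.pi_univ_Icc, Measure.restrict_pi_pi]
  have hint : ∀ j : Fin k, Integrable (fun l : ℝ =>
      Real.exp (-Real.pi * (z j - (2 * r * h j) * l) ^ 2)) (volume.restrict (Icc (-L) L)) := by
    intro j
    have : Continuous fun l : ℝ => Real.exp (-Real.pi * (z j - (2 * r * h j) * l) ^ 2) := by
      fun_prop
    exact this.continuousOn.integrableOn_compact isCompact_Icc
  rw [lint_prod (volume.restrict (Icc (-L) L)) _ (fun j l => (Real.exp_pos _).le) hint]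
  have hone : ∀ j : Fin k, ∫⁻ l in Icc (-L) L,
      ENNReal.ofReal (Real.exp (-Real.pi * (z j - (2 * r * h j) * l) ^ 2)) ≤
      ENNReal.ofReal ((2 * L) ^ β * |r| ^ (-(1 - β))) * ENNReal.ofReal (|h j| ^ (β - 1)) := by
    intro j
    have hj0 : 0 < |h j| := abs_pos.2 (hh j)
    refine (gauss_set Real.pi (z j) (2 * r * h j) (2 * L) β Real.pi_pos
      (mul_ne_zero (mul_ne_zero (by norm_num) hr) (hh j)) (by linarith) hβ0 hβ1 (Icc (-L) L)
      (by rw [Real.volume_Icc]; apply ENNReal.ofReal_le_ofReal; linarith)).trans ?_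
    rw [← ENNReal.ofReal_mul (by positivity)]
    apply ENNReal.ofReal_le_ofReal
    rw [div_self Real.pi_ne_zero, Real.sqrt_one, abs_mul, abs_mul, abs_two, mul_assoc ((2 * L) ^ β)]
    have e0 : (0 : ℝ) ≤ (2 * L) ^ β := by positivity
    refine mul_le_mul_of_nonneg_left ?_ e0
    have e1 : 1 / (2 * |r| * |h j|) ≤ |r|⁻¹ * |h j|⁻¹ := by
      rw [← mul_inv, ← one_div]
      apply one_div_le_one_div_of_le (by positivity)
      nlinarith [mul_pos hr0 hj0]
    calc (1 / (2 * |r| * |h j|)) ^ (1 - β) ≤ (|r|⁻¹ * |h j|⁻¹) ^ (1 - β) :=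
          Real.rpow_le_rpow (by positivity) e1 (by linarith)
      _ = |r| ^ (-(1 - β)) * |h j| ^ (β - 1) := by
          rw [Real.mul_rpow (by positivity) (by positivity), Real.inv_rpow hr0.le,
            Real.inv_rpow hj0.le, ← Real.rpow_neg hr0.le, ← Real.rpow_neg hj0.le]
          congr 2
          ring
  calc ∏ j : Fin k, ∫⁻ l in Icc (-L) L,
        ENNReal.ofReal (Real.exp (-Real.pi * (z j - (2 * r * h j) * l) ^ 2))
      ≤ ∏ j : Fin k, ENNReal.ofReal ((2 * L) ^ β * |r| ^ (-(1 - β))) *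
          ENNReal.ofReal (|h j| ^ (β - 1)) := Finset.prod_le_prod' fun j _ => hone j
    _ = _ := by
        rw [Finset.prod_mul_distrib, Finset.prod_const, Finset.card_univ, Fintype.card_fin,
          ← ENNReal.ofReal_pow (by positivity), mul_pow, ENNReal.ofReal_mul (by positivity)]
        congr 2
        rw [← Real.rpow_natCast, ← Real.rpow_mul hr0.le]
        congr 2
        ring

theorem t_PAR : S_PAR := by
  intro k β L hβ0 hβ1 hL
  refine ⟨ENNReal.ofReal (((2 * L) ^ β) ^ k) * Pool.Agent.W777.ST.J4 k β,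
    ENNReal.mul_lt_top ENNReal.ofReal_lt_top (Pool.Agent.W777.ST.J4_fin k β hβ0), ?_⟩
  intro M g hg r hr
  obtain ⟨ν, hν⟩ : ∃ ν : Measure (Fin k → ℝ), ν = volume.restrict
    (Icc (fun _ : Fin k => -L) (fun _ => L)) := ⟨_, rfl⟩
  have hsf : SFinite ν := by rw [hν]; infer_instance
  rw [← hν]
  simp only [four_ch hg]
  have hm := (meas_FK' (k := k) hg.meas r).enorm.pow_const 2
  rw [lintegral_lintegral_swap (by
    exact (hm.comp measurable_swap).aemeasurable)]
  obtain ⟨R, hR⟩ : ∃ R : ℝ≥0∞, R = ENNReal.ofReal (Real.exp (Real.pi * k) ^ 2) *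
    ∫⁻ z, ‖g z‖ₑ ^ 4 := ⟨_, rfl⟩
  obtain ⟨K, hK⟩ : ∃ K : ℝ≥0∞, K = ENNReal.ofReal (((2 * L) ^ β) ^ k) *
    ENNReal.ofReal (|r| ^ (-(k * (1 - β)))) := ⟨_, rfl⟩
  have hae : ∀ᵐ h : E k, ∫⁻ u, ‖𝓕 (kk g h) (dd (fun j => r * u j) h)‖ₑ ^ 2 ∂ν ≤
      (Q2 k).indicator (fun h => (K * ∏ j, ENNReal.ofReal (|h j| ^ (β - 1))) * R) h := by
    filter_upwards [ae_ne_zero k] with h hh0
    by_cases hh : h ∈ Q2 k
    · rw [indicator_of_mem hh]
      refine (Pool.Agent.W777.ST.loc_int2 ν (fun u => dd (fun j => r * u j) h) ?_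
        (K * ∏ j, ENNReal.ofReal (|h j| ^ (β - 1))) ?_ (hg.kk h)).trans ?_
      · exact (meas_dd r).comp (measurable_const.prodMk measurable_id)
      · intro z
        rw [hν, hK]
        exact box_bound β L r hβ0.le hβ1 hL hr h z hh0
      · rw [hR]
        exact mul_le_mul' le_rfl (mul_le_mul' le_rfl (Pool.Agent.W777.ST.kk_sq hg.meas h))
    · rw [indicator_of_notMem hh]
      have h1 : ∃ j, 2 < |h j| := by
        by_contra hc
        push Not at hc
        exact hh hc
      have h2 : kk g h = 0 := by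
        ext z
        exact kk_zero hg h h1 z
      have h3 : ∀ y, 𝓕 (kk g h) y = 0 := by
        intro y
        rw [h2, Real.fourier_eq]
        simp
      simp [h3]
  refine (lintegral_mono_ae hae).trans ?_
  rw [lintegral_indicator (Q2_meas _), lintegral_mul_const _ (by fun_prop),
    lintegral_const_mul _ (by fun_prop)]
  apply le_of_eq
  rw [hR, hK, Pool.Agent.W777.ST.J4]
  ring

end Pool.Agent.W479.SP
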